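import Pool.Agent.H515.EQ.Fin

/-!
# Artin representations without trivial zeros: the class groups of the cyclotomic towers

Let `F / ℚ` be a finite Galois extension, `H` a finite group which acts on `F` by `ρ`, `K` the fixed
field, and `L` a lattice (a finitely generated free abelian group) with an action of `H`. Let
`F_n = F E_n` be the layers of the cyclotomic `ℤ_p`-extension of `F`, `p` odd, `p ∤ |H|`. If no
decomposition group in `H` of a prime above `p` has invariants in `L`, and the `p`-part of the class
group of `F` has no `L`-part, then the `p`-parts of the class groups of all `F_n` have no `L`-part.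
So the part which belongs to `L` of the inverse limit of the `p`-class groups is zero; it is the part
coming from class groups of the second Iwasawa cohomology of `T = Hom(L, ℤ_p(1))` over `K`.

For a given `L` the hypotheses hold for all but finitely many primes `p` with a Frobenius element `g`
such that for all conjugates `g'` of `g` the elements of `H` which act on `F` as powers of `g'` have
no common invariants in `L`. The primes with such a Frobenius element have a natural density, the
proportion of the elements `g` with this property.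

The proof uses Herbrand quotients of the group of `H`-homomorphisms from `L` to the units.
-/

set_option autoImplicit false

namespace Pool.Agent.Results.MP_519cc8_nt.ArtinLattices

open NumberField Filter Topology

/-- `E` is the `n`-th layer of the cyclotomic `ℤ_p`-extension of `ℚ`. -/
def IsLayer (p n : ℕ) (E : IntermediateField ℚ ℂ) : Prop :=
  E ≤ IntermediateField.adjoin ℚ {z : ℂ | z ^ (p ^ (n + 2)) = 1} ∧
    Module.finrank ℚ E = p ^ n ∧ ∀ x ∈ E, starRingEnd ℂ x = x

/-- The automorphism `g` of `M` is trivial on `E` and agrees with `h` on `F`. -/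
def Lifts {F : IntermediateField ℚ ℂ} (h : F ≃+* F) (E M : IntermediateField ℚ ℂ)
    (g : M →+* M) : Prop :=
  (∀ y : M, (y : ℂ) ∈ E → g y = y) ∧ ∀ (y : M) (z : F), (y : ℂ) = z → ((g y : M) : ℂ) = (h z : F)

/-- The class group of `M`, written additively. -/
def Cl (M : Type) [Field M] [NumberField M] : Type := Additive (ClassGroup (𝓞 M))

noncomputable instance (M : Type) [Field M] [NumberField M] : AddCommGroup (Cl M) :=
  (Additive.addCommGroup : AddCommGroup (Additive (ClassGroup (𝓞 M))))

/-- The class of the nonzero ideal `I` of `M`. -/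
noncomputable def cl {M : Type} [Field M] [NumberField M]
    (I : nonZeroDivisors (Ideal (𝓞 M))) : Cl M :=
  Additive.ofMul (ClassGroup.mk0 I)

/-- The automorphism `g` of `M` maps the class `c` to the class `d`. -/
def MapsTo {M : Type} [Field M] [NumberField M] (g : M →+* M) (c d : Cl M) : Prop :=
  ∀ I J : nonZeroDivisors (Ideal (𝓞 M)),
    (J : Ideal (𝓞 M)) = Ideal.map (RingOfIntegers.mapRingHom g) I → cl I = c → cl J = d

/-- The homomorphism `f : L → Cl(M)` is compatible with the automorphisms `g` of `M` which are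
trivial on `E` and agree with an element `h` of `H` on `F`: they map `f x` to `f (h x)`. -/
def Compat {F : IntermediateField ℚ ℂ} {H : Type} [Group H] (ρ : H →* (F ≃+* F))
    (E M : IntermediateField ℚ ℂ) [NumberField M] (L : Type) [AddCommGroup L]
    [DistribMulAction H L] (f : L →+ Cl M) : Prop :=
  ∀ (h : H) (g : M →+* M), Lifts (ρ h) E M g → ∀ x : L, MapsTo g (f x) (f (h • x))

/-- The `p`-part of the class group of `M` has no `L`-part: every compatible homomorphism from `L` to
the class group whose values are `p`-power torsion is zero. -/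
def NoPart (p : ℕ) {F : IntermediateField ℚ ℂ} {H : Type} [Group H] (ρ : H →* (F ≃+* F))
    (E M : IntermediateField ℚ ℂ) [NumberField M] (L : Type) [AddCommGroup L]
    [DistribMulAction H L] : Prop :=
  ∀ f : L →+ Cl M, Compat ρ E M L f → ∀ x, (∃ k, p ^ k • f x = 0) → f x = 0

/-- The decomposition groups in `H` of the primes above `p` have no nonzero invariants in `L`. -/
def NoInv (p : ℕ) {F : IntermediateField ℚ ℂ} [NumberField F] {H : Type} [Group H]
    (ρ : H →* (F ≃+* F)) (L : Type) [AddCommGroup L] [DistribMulAction H L] : Prop :=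
  ∀ P : Ideal (𝓞 F), P.IsPrime → (p : 𝓞 F) ∈ P → ∀ x : L,
    (∀ h : H, Ideal.map (RingOfIntegers.mapRingHom (ρ h : F →+* F)) P = P →
      h • x = x) → x = 0

/-- `g` is a Frobenius element at a prime of `F` above `p`. -/
def IsFrob (p : ℕ) (F : IntermediateField ℚ ℂ) [NumberField F] (g : F ≃+* F) : Prop :=
  ∃ Q : Ideal (𝓞 F), Q.IsPrime ∧ (p : 𝓞 F) ∈ Q ∧ ∀ x : 𝓞 F, ∃ y ∈ Q, (y : F) = g x - (x : F) ^ p

/-- For each conjugate `g'` of `g`, the elements of `H` which act on `F` as powers of `g'` have no
common nonzero invariants in `L`. -/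
def Free {F : IntermediateField ℚ ℂ} {H : Type} [Group H] (ρ : H →* (F ≃+* F)) (L : Type)
    [AddCommGroup L] [DistribMulAction H L] (g : F ≃+* F) : Prop :=
  ∀ (τ : F ≃+* F) (x : L),
    (∀ h : H, ρ h ∈ Subgroup.zpowers (τ * g * τ⁻¹) → h • x = x) → x = 0

/-- The set of the primes `p` with the property `P` has natural density `δ` among all primes. -/
def HasDensity (P : ℕ → Prop) (δ : ℝ) : Prop :=
  Tendsto (fun N : ℕ => (Nat.card {p : ℕ // p.Prime ∧ p ≤ N ∧ P p} : ℝ) /
    (Nat.primeCounting N : ℝ)) atTop (𝓝 δ)

/-- The `p`-parts of the class groups of all layers `F_n = F E_n` have no `L`-part. -/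
def NoPartTower (p : ℕ) {F : IntermediateField ℚ ℂ} {H : Type} [Group H]
    (ρ : H →* (F ≃+* F)) (L : Type) [AddCommGroup L] [DistribMulAction H L] : Prop :=
  ∀ (n : ℕ) (E : IntermediateField ℚ ℂ), IsLayer p n E → ∀ [NumberField ↥(F ⊔ E)],
    NoPart p ρ E (F ⊔ E) L

/-- `p` has a Frobenius element which is free on `L`. -/
def FreeFrob (p : ℕ) {F : IntermediateField ℚ ℂ} [NumberField F] {H : Type} [Group H]
    (ρ : H →* (F ≃+* F)) (L : Type) [AddCommGroup L] [DistribMulAction H L] : Prop :=
  ∃ g, Free ρ L g ∧ IsFrob p F g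

theorem result (F : IntermediateField ℚ ℂ) [NumberField F] (hF : IsGalois ℚ F)
    (H : Type) [Group H] [Finite H] (ρ : H →* (F ≃+* F)) (L : Type) [AddCommGroup L]
    [Module.Free ℤ L] [Module.Finite ℤ L] [DistribMulAction H L] :
    -- (A) one prime `p`: the vanishing for `F` implies the vanishing for all layers
    (∀ p : ℕ, p.Prime → p ≠ 2 → (Nat.card H).Coprime p → NoInv p ρ L → NoPart p ρ ⊥ F L →
      NoPartTower p ρ L) ∧
    -- (B) almost all primes `p` with a given type of Frobenius elements
    HasDensity (fun p => FreeFrob p ρ L)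
      ((Nat.card {g : F ≃+* F // Free ρ L g} : ℝ) / Module.finrank ℚ F) ∧
    ∃ B : ℕ, ∀ p : ℕ, p.Prime → B < p → FreeFrob p ρ L → NoPartTower p ρ L := by
  have hcompat : ∀ (E M : IntermediateField ℚ ℂ) [NumberField M]
      (f : L →+ Cl M),
      Compat ρ E M L f ↔ Pool.Agent.H515.EQ.Compat ρ E M L f := by
    intro E M _ f
    constructor
    · intro h g g' h1 h2 x I J hJ hI
      exact h g g' ⟨h1, h2⟩ x I J hJ hI
    · intro h g g' h1 x I J hJ hI
      exact h g g' h1.1 h1.2 x I J hJ hI
  have hpart : ∀ (p : ℕ) (E M : IntermediateField ℚ ℂ) [NumberField M],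
      NoPart p ρ E M L ↔ Pool.Agent.H515.EQ.NoPart p ρ E M L := by
    intro p E M _
    constructor
    · intro h f hf
      exact h f ((hcompat E M f).2 hf)
    · intro h f hf
      exact h f ((hcompat E M f).1 hf)
  refine ⟨?_, ?_, ?_⟩
  · intro p hp hp2 hH hinv hbase n E hE _
    rw [hpart]
    exact Pool.Agent.H515.EQ.noPart_layer hp hp2 hF hE ρ hH
      (Pool.Agent.H515.EQ.noInv_dec hinv)
      (Pool.Agent.H515.EQ.noPart_base (E := ⊥) ((hpart p ⊥ F).1 hbase))
  · exact Pool.Agent.H515.EQ.dens_frob F {g | Pool.Agent.H515.EQ.FreeAt ρ L g}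
      fun g hg τ => Pool.Agent.H515.EQ.freeAt_conj hg τ
  · refine ⟨2 + classNumber F + Nat.card H, fun p hp hB hFr n E hE _ => ?_⟩
    obtain ⟨g, hg, hgF⟩ := hFr
    have hc : ¬ p ∣ classNumber F := fun h => by
      have := Nat.le_of_dvd (classNumber_pos F) h
      omega
    have hpos : 0 < Nat.card H := Nat.card_pos
    have hcop : (Nat.card H).Coprime p :=
      (Nat.coprime_of_lt_prime hpos.ne' (by omega) hp).symm
    rw [hpart]
    exact Pool.Agent.H515.EQ.noPart_layer hp (by omega) hF hE ρ hcop
      (Pool.Agent.H515.EQ.dec_of_frob hp hgF hg)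
      (Pool.Agent.H515.EQ.base_of_not_dvd hp hc _ L)

end Pool.Agent.Results.MP_519cc8_nt.ArtinLattices
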