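import Pool.Agent.H367.OS.OCut
import Mathlib

/-!
# Mu-invariants of Iwasawa cohomology and one double sequence of number fields

A relation `r` of size `m` is one of the equations `x_i x_j = x_l`, `x_i + x_j = x_l`, `x_i = 1` with
`i, j, l < m`; the relations are numbered, the number of `r` is `ν(r)` (`relNum`). Let `G_m` be the
following polynomial with integral coefficients (`univG ℤ m`). There are variables `x_i` and `z_ij` for
`i, j < m`, a variable `c_r` for every relation `r`, and variables `y_{r,l}` for all relations `r` and
`l < (m + 1) 2 ^ ν(r)`. The equations (`eqnG`) are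

  `z_ij - x_i x_j`,  `c_r ^ 2 - c_r`,  `c_r ρ_r`,  `(1 - c_r) y_{r,l}`,

where `ρ_r` is the linear polynomial `z_ij - x_l`, `x_i + x_j - x_l` or `x_i - 1` of the relation.
`G_m` is the sum of the equations multiplied by further variables `t_e`, one for each equation. It has
degree three. Let `C_m` be the affine cubic hypersurface `G_m = 1` (`cubG R m` over the ring `R`); it is
smooth over the integers.

Let `M` be the category of motives over `ℚ` in the sense of André, a semisimple abelian category with
Tate twists `N ↦ N(a)`. For a separated scheme `X` of finite type over `ℚ` let `D.G w j X = Gr^W_w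
H^j_c(X)` be the part of weight `w` of the cohomology with compact supports, a motive over `ℚ`; for
smooth projective `Y` it is `h^j(Y)` if `j = w`, and zero otherwise. The motives `h^0(Y)` and their
direct factors are the Artin motives over `ℚ` (representations of `Gal(ℚ̄/ℚ)` over `ℚ` with finite
image).

Let `E_m` be the number of the equations, and for `N ∈ ℕ` let `e = (m + 1) N + E_m - 1`
(`esh m N`). Let `V_{m,N}` be the
motive `Gr^W_{2e} H^{2e+1}_c(C_m)(e)` (`single0 D m N`).

For a motive `N` let `cut N` be the fixed field of the kernel of the action of `Gal(ℚ̄/ℚ)` on an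
ℓ-adic realization of `N` (a Galois extension of `ℚ` in `ℚ̄`; for Artin motives it is a number field
which does not depend on `ℓ`; the field of `h^0(Spec L)` is the Galois closure of `L`; hypotheses
`CutsOut`). Let `F_{m,N}` be the field cut out by the Artin motive `V_{m,N}` (`numField`).

The type `C` consists of all data `(p, K, L, T, S, Σ)` of the question (`p = prime c` is an odd
prime), and `Q1 c` is the assertion of the question for `c`. `MuZero p F` is Iwasawa's conjecture for
`p` and the number field `F`, in terms of class numbers: there is a `C` such that the `p`-adic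
valuation of the class number of `F ℚ_m` is at most `C (m + 1)` for all `m`, where `ℚ_m` is the
subfield of degree `p ^ m` of the field of the `p ^ (m + 1)`-th roots of unity.

Question Q1 does not depend on `Σ`, and for `L = K` and `T = ℤ_p(1)` it is Iwasawa's conjecture for
`K` and `p` (hypothesis `special`). Conversely let `F` be a number field which contains `L`, the
`p`-th roots of unity and the field cut out by `T/π`. If Iwasawa's conjecture is true for `F`, then
`H^2(G_S(F_∞), T/π) = 0`, so `H^2_Iw(O_{F,S}, T)` is finitely generated over `𝓡` (Coates and Sujatha,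
Lim), and so is its quotient `H^2_Iw(O_{L,S}, T)` (the cohomological dimension is two), which implies
`Q1 c` (hypothesis `general`).

**Theorem.** (1) For `m ≥ 1` the fields `F_{m,N}` are Galois extensions of `ℚ` of finite degree. Every
number field is isomorphic to a subfield of `F_{m,N}` for all large `m` and some `N`.

(2) Question Q1 has a positive answer for all data if and only if, for infinitely many `m`, Iwasawa's
conjecture is true for `F_{m,N}` and all odd primes, for all `N`.

(3) For all data `c = (p, K, L, T, S, Σ)` and all large `m` there is an `N` such that Iwasawa's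
conjecture for `p` and the single field `F_{m,N}` implies question Q1 for `c`.

(4) If Q1 is false for `c`, then for all large `m` Iwasawa's conjecture is false for `p` and
`F_{m,N}`, for some `N`.

(5) `G_m` has integral coefficients and degree at most three, and `C_m` is smooth over all rings.

The hypotheses on the motives are standard (`IsMot`): exact sequences, affine bundles, disjoint unions,
the cohomology of affine spaces, the weights of `H^j_c(X)` are between `0` and `2 dim X`, monomorphisms
split, `Gr^W_w H^j_c(X)` is a direct factor of `h^w(Y)` for some smooth projective `Y` (it is a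
subquotient, by the weight spectral sequence), and every smooth projective scheme has an affine bundle
whose total space is affine (Jouanolou).

Idea of the proof. The projection of `C_m` to the affine space with the coordinates `x, z, c, y` is an
affine bundle over the complement of the zero set `W_m` of the equations. The scheme `W_m` is the
disjoint union, over all sets `s` of relations (`c_r = 1` for `r ∈ s` and `c_r = 0` for the others), of
the products `X_s × 𝔸 ^ ((m + 1) N(s))`, where `X_s` is the affine scheme defined by the relations in
`s` and `N(s) = ∑_{r ∈ s} 2 ^ ν(r)`. The numbers `N(s)` are different, and the dimension of `X_s` is at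
most `m`. So the invariant of `W_m` with the index `q + (m + 1) N(s)`, `0 ≤ q ≤ m`, is the invariant of
`X_s` with the index `q`; the other components do not contribute. Every affine scheme of finite type
over a prime field is an `X_s`, for all large `m`.

The universal system of relations is the one of helper854 (`Pool.Agent.H854.SQ`).
-/

set_option autoImplicit false

open CategoryTheory CategoryTheory.Limits AlgebraicGeometry Pool.Agent.Y116.UV Pool.Agent.Z125.UN
  Pool.Agent.Q193.LT Pool.Agent.H854.SQ Pool.Agent.H367.OS
open NumberField

universe w v u



namespace Pool.Agent.Results.MP_519cc8_nt.PiecesOfOneSequence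

/-- Iwasawa's conjecture for `p` and the number field `F`, in terms of class numbers. -/
def MuZero (p : ℕ) (F : AlgField) : Prop :=
  ∃ C : ℕ, ∀ m : ℕ, ∀ E : AlgField,
    E ≤ IntermediateField.adjoin ℚ {z : AlgebraicClosure ℚ | z ^ (p ^ (m + 1)) = 1} →
    Module.finrank ℚ E = p ^ m →
    padicValNat p (Nat.card (ClassGroup (𝓞 ↥(F ⊔ E)))) ≤ C * (m + 1)

/-- Question Q1 for the data `c` with the odd prime `prime c` (`Q1 c`), and Iwasawa's conjecture. -/
structure Describes {C : Type w} (prime : C → ℕ) (Q1 : C → Prop) : Prop where
  odd : ∀ c : C, (prime c).Prime ∧ prime c ≠ 2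
  special : (∀ c : C, Q1 c) → ∀ p : ℕ, p.Prime → p ≠ 2 → ∀ F : AlgField, OfFiniteDegree F →
    MuZero p F
  general : ∀ c : C, ∃ F : AlgField, OfFiniteDegree F ∧
    ∀ F' : AlgField, OfFiniteDegree F' → F ≤ F' → MuZero (prime c) F' → Q1 c

/-- **Mu-invariants of Iwasawa cohomology and one double sequence of number fields.** See the
explanations above. -/
theorem result {M : Type u} [Category.{v} M] [Abelian M] {D : Pieces ℚ M} (h : IsMot D)
    {cut : M → AlgField} (hc : CutsOut D cut) {C : Type w} {prime : C → ℕ} {Q1 : C → Prop}
    (hE : Describes prime Q1) :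
    ((∀ m, 1 ≤ m → ∀ N : ℕ, OfFiniteDegree (numField D cut m N) ∧
        IsNormal (numField D cut m N)) ∧
      ∀ (K : Type) [Field K] [NumberField K], ∀ᶠ m in Filter.atTop, ∃ N : ℕ,
        Nonempty (K →+* numField D cut m N)) ∧
    ((∀ c : C, Q1 c) ↔ ∃ᶠ m in Filter.atTop, ∀ (N p : ℕ), p.Prime → p ≠ 2 →
      MuZero p (numField D cut m N)) ∧
    (∀ c : C, ∀ᶠ m in Filter.atTop, ∃ N : ℕ, MuZero (prime c) (numField D cut m N) → Q1 c) ∧
    (∀ c : C, ¬ Q1 c → ∀ᶠ m in Filter.atTop, ∃ N : ℕ,
      ¬ MuZero (prime c) (numField D cut m N)) ∧
    ∀ m : ℕ, (univG ℤ m).totalDegree ≤ 3 ∧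
      ∀ (R : Type) [CommRing R], MvPolynomial.map (Int.castRingHom R) (univG ℤ m) = univG R m ∧
        Smooth (cubG R m).hom := by
  obtain ⟨h2, _, h3, _⟩ := fields h hc
  have h4 : ∀ c : C, ∀ᶠ m in Filter.atTop, ∃ N : ℕ,
      MuZero (prime c) (numField D cut m N) → Q1 c := by
    intro c
    obtain ⟨L, hL, hg⟩ := hE.general c
    filter_upwards [h3 L hL, Filter.eventually_ge_atTop 1] with m hm hm1
    obtain ⟨N, hN⟩ := hm
    exact ⟨N, hg _ (h2 m hm1 N).1 hN⟩
  refine ⟨⟨h2, fun K _ _ => embeds h hc K⟩, ⟨fun g => ?_, fun g c => ?_⟩, h4, fun c hc' => ?_,
    cubG_facts⟩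
  · refine Filter.Eventually.frequently ?_
    filter_upwards [Filter.eventually_ge_atTop 1] with m hm N p hp hp2
    exact hE.special g p hp hp2 _ (h2 m hm N).1
  · obtain ⟨m, hm1, N, hN⟩ := (g.and_eventually (h4 c)).exists
    exact hN (hm1 N _ (hE.odd c).1 (hE.odd c).2)
  · filter_upwards [h4 c] with m hm
    obtain ⟨N, hN⟩ := hm
    exact ⟨N, fun g => hc' (hN g)⟩

end Pool.Agent.Results.MP_519cc8_nt.PiecesOfOneSequence
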